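import Pool.Agent.Run7.h520.LW.I

/-!
# Piece CALC of the project MP_75b3be_lc: inclusion-exclusion for `dl` and no ties
-/

set_option autoImplicit false
set_option linter.all false

namespace Run7.h921.LW
open Run7.h520.LW
open Classical

theorem incl_sum {ι : Type} [DecidableEq ι] (SU SA SB SI NW : Finset ι)
    (hI : ∀ x, x ∈ SI ↔ x ∈ SA ∧ x ∈ SB)
    (hA : ∀ x, x ∈ SA → x ∈ SU) (hB : ∀ x, x ∈ SB → x ∈ SU)
    (hN : ∀ x, x ∈ NW ↔ x ∈ SU ∧ x ∉ SA ∧ x ∉ SB) (c : ι → ℝ) :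
    ∑ x ∈ SU, c x + ∑ x ∈ SI, c x = ∑ x ∈ SA, c x + ∑ x ∈ SB, c x + ∑ x ∈ NW, c x := by
  have e1 : SI = SA ∩ SB := by ext x; rw [hI, Finset.mem_inter]
  have e2 : SU = (SA ∪ SB) ∪ NW := by
    ext x
    rw [Finset.mem_union, Finset.mem_union, hN]
    constructor
    · intro h
      by_cases h1 : x ∈ SA
      · exact Or.inl (Or.inl h1)
      · by_cases h2 : x ∈ SB
        · exact Or.inl (Or.inr h2)
        · exact Or.inr ⟨h, h1, h2⟩
    · rintro ((h | h) | h)
      · exact hA x h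
      · exact hB x h
      · exact h.1
  have hd : Disjoint (SA ∪ SB) NW := by
    rw [Finset.disjoint_left]
    intro x hx hx'
    rw [hN] at hx'
    rcases Finset.mem_union.1 hx with h | h
    · exact hx'.2.1 h
    · exact hx'.2.2 h
  rw [e2, Finset.sum_union hd, e1, ← Finset.sum_union_inter (s₁ := SA) (s₂ := SB)]
  ring

section
variable {V : Type} [DecidableEq V] (G : Str V) (A B : Finset V)

theorem ic_inter_iff (x : V × (ℕ × List V)) :
    x ∈ G.ic (A ∩ B) ↔ x ∈ G.ic A ∧ x ∈ G.ic B := by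
  rw [Str.mem_ic, Str.mem_ic, Str.mem_ic, Finset.mem_inter, lin_inter, Finset.mem_inter]
  tauto

theorem ed_inter_iff (x : V × V) :
    x ∈ G.ed (A ∩ B) ↔ x ∈ G.ed A ∧ x ∈ G.ed B := by
  rw [Str.mem_ed, Str.mem_ed, Str.mem_ed, Finset.mem_inter, Finset.mem_inter]
  tauto

theorem fl_inter_iff (x : (V × V) × (ℕ × List V)) :
    x ∈ G.fl (A ∩ B) ↔ x ∈ G.fl A ∧ x ∈ G.fl B := by
  rw [Str.mem_fl, Str.mem_fl, Str.mem_fl, ed_inter_iff, lin_inter, Finset.mem_inter]
  tauto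

end

section
variable {V : Type} (G : Str V) {A B : Finset V}

theorem ic_mono (h : A ⊆ B) (x : V × (ℕ × List V)) (hx : x ∈ G.ic A) : x ∈ G.ic B := by
  rw [Str.mem_ic] at hx ⊢
  exact ⟨h hx.1, lin_mono h hx.2.1, hx.2.2⟩

theorem ed_mono (h : A ⊆ B) (x : V × V) (hx : x ∈ G.ed A) : x ∈ G.ed B := by
  rw [Str.mem_ed] at hx ⊢
  exact ⟨h hx.1, h hx.2.1, hx.2.2⟩

theorem fl_mono (h : A ⊆ B) (x : (V × V) × (ℕ × List V)) (hx : x ∈ G.fl A) : x ∈ G.fl B := by
  rw [Str.mem_fl] at hx ⊢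
  exact ⟨ed_mono G h _ hx.1, lin_mono h hx.2.1, hx.2.2⟩

end

theorem mem_nic {V : Type} [DecidableEq V] {G : Str V} {A B : Finset V} {x : V × (ℕ × List V)} :
    x ∈ G.nic A B ↔ x ∈ G.ic (A ∪ B) ∧ x ∉ G.ic A ∧ x ∉ G.ic B := by
  unfold Str.nic; rw [Finset.mem_filter]

theorem mem_ned {V : Type} [DecidableEq V] {G : Str V} {A B : Finset V} {x : V × V} :
    x ∈ G.ned A B ↔ x ∈ G.ed (A ∪ B) ∧ x ∉ G.ed A ∧ x ∉ G.ed B := by
  unfold Str.ned; rw [Finset.mem_filter]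

theorem mem_nfl {V : Type} [DecidableEq V] {G : Str V} {A B : Finset V}
    {x : (V × V) × (ℕ × List V)} :
    x ∈ G.nfl A B ↔ x ∈ G.fl (A ∪ B) ∧ x ∉ G.fl A ∧ x ∉ G.fl B := by
  unfold Str.nfl; rw [Finset.mem_filter]

theorem incl {V : Type} [DecidableEq V] (G : Str V) (A B : Finset V) :
    G.dl (A ∪ B) + G.dl (A ∩ B) + (∑ p ∈ G.nic A B, a p.2.1) + w 0 * (G.ned A B).card =
      G.dl A + G.dl B + ∑ p ∈ G.nfl A B, q (p.2.1 + 1) := by
  have h1 := incl_sum (G.ic (A ∪ B)) (G.ic A) (G.ic B) (G.ic (A ∩ B)) (G.nic A B)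
    (ic_inter_iff G A B) (ic_mono G Finset.subset_union_left) (ic_mono G Finset.subset_union_right)
    (fun x => mem_nic) (fun p => a p.2.1)
  have h2 := incl_sum (G.fl (A ∪ B)) (G.fl A) (G.fl B) (G.fl (A ∩ B)) (G.nfl A B)
    (fl_inter_iff G A B) (fl_mono G Finset.subset_union_left) (fl_mono G Finset.subset_union_right)
    (fun x => mem_nfl) (fun p => q (p.2.1 + 1))
  have h3 := incl_sum (G.ed (A ∪ B)) (G.ed A) (G.ed B) (G.ed (A ∩ B)) (G.ned A B)
    (ed_inter_iff G A B) (ed_mono G Finset.subset_union_left) (ed_mono G Finset.subset_union_right)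
    (fun x => mem_ned) (fun p => 1)
  have h4 : (((A ∪ B).card : ℝ)) + (A ∩ B).card = A.card + B.card := by
    exact_mod_cast Finset.card_union_add_card_inter A B
  simp only [Finset.sum_const, nsmul_eq_mul, mul_one] at h3
  unfold Str.dl
  linear_combination wt * h4 - h1 + h2 - w 0 * h3

/-- integer multiples of `q j` -/
def Mul (j : ℕ) (x : ℝ) : Prop := ∃ z : ℤ, x = z * q j

theorem Mul.add {j : ℕ} {x y : ℝ} (hx : Mul j x) (hy : Mul j y) : Mul j (x + y) := by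
  obtain ⟨a, rfl⟩ := hx
  obtain ⟨b, rfl⟩ := hy
  exact ⟨a + b, by push_cast; ring⟩

theorem Mul.sub {j : ℕ} {x y : ℝ} (hx : Mul j x) (hy : Mul j y) : Mul j (x - y) := by
  obtain ⟨a, rfl⟩ := hx
  obtain ⟨b, rfl⟩ := hy
  exact ⟨a - b, by push_cast; ring⟩

theorem Mul.nat {j : ℕ} {x : ℝ} (hx : Mul j x) (n : ℕ) : Mul j (x * n) := by
  obtain ⟨a, rfl⟩ := hx
  exact ⟨a * n, by push_cast; ring⟩

theorem Mul.zero (j : ℕ) : Mul j 0 := ⟨0, by simp⟩

theorem Mul.sum {ι : Type} {j : ℕ} (S : Finset ι) (c : ι → ℝ) (h : ∀ x ∈ S, Mul j (c x)) :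
    Mul j (∑ x ∈ S, c x) := by
  induction S using Finset.induction_on with
  | empty => simpa using Mul.zero j
  | insert x S hx ih =>
    rw [Finset.sum_insert hx]
    exact (h x (Finset.mem_insert_self _ _)).add (ih fun y hy => h y (Finset.mem_insert_of_mem hy))

theorem mul_q {i j : ℕ} (h : i ≤ j) : Mul j (q i) := by
  induction j, h using Nat.le_induction with
  | base => exact ⟨1, by simp⟩
  | succ j h ih =>
    obtain ⟨z, hz⟩ := ih
    obtain ⟨m, hm⟩ := q_div j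
    exact ⟨z * m, by rw [hz, hm]; push_cast; ring⟩

theorem dl_form {V : Type} (G : Str V) (j : ℕ) (X : Finset V) (hX : X.card < g j) :
    Mul j (G.dl X + w j * (X.card + (G.ed X).card)) := by
  have hw : Mul j (w 0 - w j) := by
    rw [← w_sum j]
    have : w 0 - (w 0 - ∑ i ∈ Finset.range j, q (i + 1)) = ∑ i ∈ Finset.range j, q (i + 1) := by
      ring
    rw [this]
    exact Mul.sum _ _ fun i hi => mul_q (Finset.mem_range.1 hi)
  have hwt : Mul j (q 0 - (w 0 - w j)) := (mul_q (Nat.zero_le j)).sub hw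
  have e : G.dl X + w j * (X.card + (G.ed X).card) =
      (q 0 - (w 0 - w j)) * (X.card : ℕ) - (∑ p ∈ G.ic X, a p.2.1) -
        (w 0 - w j) * ((G.ed X).card : ℕ) + ∑ p ∈ G.fl X, q (p.2.1 + 1) := by
    unfold Str.dl wt
    rw [q_zero]
    ring
  rw [e]
  refine (((hwt.nat _).sub (Mul.sum _ _ fun p hp => ?_)).sub (hw.nat _)).add
    (Mul.sum _ _ fun p hp => ?_)
  · rw [Str.mem_ic] at hp
    have hl := lin_level hp.2.1 hX
    unfold a
    have : q p.2.1 - 2 * q (p.2.1 + 1) = q p.2.1 - q (p.2.1 + 1) * (2 : ℕ) := by push_cast; ring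
    rw [this]
    exact (mul_q hl.le).sub ((mul_q hl).nat 2)
  · rw [Str.mem_fl] at hp
    have hl := lin_level hp.2.1 hX
    exact mul_q hl

theorem dl_diff {V : Type} (G : Str V) (j : ℕ) (X Y : Finset V) (h : X ⊂ Y) (hY : Y.card < g j) :
    G.dl X + q j / 2 ≤ G.dl Y ∨ G.dl Y + w j ≤ G.dl X := by
  have hc := Finset.card_lt_card h
  obtain ⟨z1, h1⟩ := dl_form G j X (lt_trans hc hY)
  obtain ⟨z2, h2⟩ := dl_form G j Y hY
  have he : (G.ed X).card ≤ (G.ed Y).card := Finset.card_le_card fun x hx => ed_mono G h.1 x hx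
  have he2 : (G.ed Y).card ≤ Y.card * Y.card := by
    unfold Str.ed
    refine (Finset.card_filter_le _ _).trans ?_
    rw [Finset.card_product]
  have hw0 := w_pos j
  have hq0 := q_pos j
  have hq1 := q_pos (j + 1)
  have hwl := w_le j
  have hql := q_lt j
  have hq1' := q_le_one j
  have hg := g_ge' j
  -- D
  set D : ℝ := ((Y.card : ℝ) + (G.ed Y).card) - (X.card + (G.ed X).card) with hD
  have hD1 : 1 ≤ D := by
    have a1 : (X.card : ℝ) + 1 ≤ Y.card := by exact_mod_cast hc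
    have a2 : ((G.ed X).card : ℝ) ≤ (G.ed Y).card := by exact_mod_cast he
    rw [hD]; linarith
  have hD2 : D ≤ 2 * (g j : ℝ) ^ 2 := by
    have a1 : (Y.card : ℝ) ≤ g j := by exact_mod_cast hY.le
    have a2 : ((G.ed Y).card : ℝ) ≤ Y.card * Y.card := by exact_mod_cast he2
    have a3 : (0 : ℝ) ≤ X.card := Nat.cast_nonneg _
    have a4 : (0 : ℝ) ≤ (G.ed X).card := Nat.cast_nonneg _
    have a5 : (0 : ℝ) ≤ Y.card := Nat.cast_nonneg _
    have a6 : (Y.card : ℝ) * Y.card ≤ g j * g j := mul_le_mul a1 a1 a5 (by linarith)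
    rw [hD]
    nlinarith
  have hwD : w j * D ≤ q j / 2 := by
    have a1 : w j * D ≤ (2 * q (j + 1)) * (2 * (g j : ℝ) ^ 2) :=
      mul_le_mul hwl hD2 (by linarith) (by linarith)
    have a2 : (g j : ℝ) ^ 2 ≤ (g j : ℝ) ^ 4 := pow_le_pow_right₀ (by linarith) (by norm_num)
    have a3 : q j ^ 4 ≤ q j := by
      have : q j ^ 4 ≤ q j ^ 1 := pow_le_pow_of_le_one hq0.le hq1' (by norm_num)
      simpa using this
    have a4 : q (j + 1) * (g j : ℝ) ^ 2 ≤ q (j + 1) * (g j : ℝ) ^ 4 :=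
      mul_le_mul_of_nonneg_left a2 hq1.le
    nlinarith
  have e : G.dl Y - G.dl X = (z2 - z1 : ℤ) * q j - w j * D := by
    push_cast
    rw [hD]
    linear_combination h2 - h1
  rcases le_or_gt 1 (z2 - z1) with hz | hz
  · left
    have : (1 : ℝ) ≤ ((z2 - z1 : ℤ) : ℝ) := by exact_mod_cast hz
    nlinarith
  · right
    have : ((z2 - z1 : ℤ) : ℝ) ≤ 0 := by exact_mod_cast (by omega : z2 - z1 ≤ 0)
    nlinarith

theorem CALC : S_CALC where
  incl := fun G A B => incl G A B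
  up := by
    intro V G j X Y h hY hlt
    rcases dl_diff G j X Y h hY with h1 | h1
    · exact h1
    · have := w_pos j
      linarith
  down := by
    intro V G j X Y h hY hlt
    rcases dl_diff G j X Y h hY with h1 | h1
    · have := q_pos j
      linarith
    · exact h1

end Run7.h921.LW
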