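import Pool.Agent.Run7.h921.LW.CALC

/-!
# Piece SMK of the project MP_75b3be_lc: submodularity
-/

set_option autoImplicit false
set_option linter.all false

namespace Run7.h921.LW
open Run7.h520.LW
open Classical

/-- sum over levels -/
theorem sum_levels {ι : Type} (S : Finset ι) (lev : ι → ℕ) (c : ℕ → ℝ) (M : ℕ)
    (hM : ∀ x ∈ S, lev x < M) :
    ∑ x ∈ S, c (lev x) = ∑ j ∈ Finset.range M, c j * ((S.filter fun x => lev x = j).card : ℝ) := by
  rw [← Finset.sum_fiberwise_of_maps_to (s := S) (t := Finset.range M) (g := lev)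
    (fun x hx => Finset.mem_range.2 (hM x hx))]
  refine Finset.sum_congr rfl fun j _ => ?_
  rw [Finset.sum_congr rfl (g := fun _ => c j) fun x hx => by rw [(Finset.mem_filter.1 hx).2],
    Finset.sum_const, nsmul_eq_mul, mul_comm]

section

variable {V : Type} [DecidableEq V] {G : Str V} {Z : Set V} {A B : Finset V}

/-- a line of `A ∪ B` which is not a line of `B`, with letters in `Z`, has few points in `B` -/
theorem pts_lt_of {l : ℕ × List V} {X : Finset V} (hB : G.PC B Z) (hl : l ∈ lin X)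
    (hX : ↑X ⊆ Z) (hn : l ∉ lin B) : (G.pts l B).card < N l.1 := by
  have h1 := mem_lin.1 hl
  refine hB.pts_lt (fun x hx => hX (h1.2.2 x hx)) ?_
  by_contra h
  push Not at h
  exact hn (mem_lin.2 ⟨h1.1, h1.2.1, h⟩)

theorem union_sub (hA : G.PC A Z) (hB : G.PC B Z) : (↑(A ∪ B) : Set V) ⊆ Z := by
  rw [Finset.coe_union]
  exact Set.union_subset hA.sub hB.sub

/-- the ends of a new edge -/
theorem ned_ends {e : V × V} (he : e ∈ G.ned A B) :
    (e.1 ∈ B ∧ e.1 ∉ A ∧ e.2 ∈ A ∧ e.2 ∉ B) ∨ (e.2 ∈ B ∧ e.2 ∉ A ∧ e.1 ∈ A ∧ e.1 ∉ B) := by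
  obtain ⟨h1, h2, h3⟩ := mem_ned.1 he
  rw [Str.mem_ed] at h1 h2 h3
  obtain ⟨h4, h5, h6⟩ := h1
  rw [Finset.mem_union] at h4 h5
  tauto

/-- new incidences of level `j` -/
noncomputable def nicj (G : Str V) (A B : Finset V) (j : ℕ) : Finset (V × (ℕ × List V)) :=
  (G.nic A B).filter fun p => p.2.1 = j

theorem nic_mk {p : V} {l : ℕ × List V} (hp : p ∈ A ∪ B) (hl : l ∈ lin (A ∪ B)) (ho : G.On p l)
    (h1 : p ∉ A ∨ l ∉ lin A) (h2 : p ∉ B ∨ l ∉ lin B) : (p, l) ∈ G.nic A B := by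
  rw [mem_nic]
  refine ⟨Str.mem_ic.2 ⟨hp, hl, ho⟩, ?_, ?_⟩
  · intro h
    rw [Str.mem_ic] at h
    tauto
  · intro h
    rw [Str.mem_ic] at h
    tauto

/-- lines through a new edge in `lin A` are unique -/
theorem uniqueA (hA : G.PC A Z) (hB : G.PC B Z) {e : V × V} (he : e ∈ G.ned A B)
    {l l' : ℕ × List V} (hl : l ∈ lin A) (hl' : l' ∈ lin A) (hj : l'.1 = l.1)
    (h1 : G.On e.1 l) (h2 : G.On e.2 l) (h1' : G.On e.1 l') (h2' : G.On e.2 l') : l = l' := by
  rcases ned_ends he with h | h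
  · exact Str.nl_unique (hA.g2 e.1 (hB.sub (Finset.mem_coe.2 h.1)) h.2.1 l.1) hl rfl h1 hl' hj h1'
  · exact Str.nl_unique (hA.g2 e.2 (hB.sub (Finset.mem_coe.2 h.1)) h.2.1 l.1) hl rfl h2 hl' hj h2'

theorem uniqueB (hA : G.PC A Z) (hB : G.PC B Z) {e : V × V} (he : e ∈ G.ned A B)
    {l l' : ℕ × List V} (hl : l ∈ lin B) (hl' : l' ∈ lin B) (hj : l'.1 = l.1)
    (h1 : G.On e.1 l) (h2 : G.On e.2 l) (h1' : G.On e.1 l') (h2' : G.On e.2 l') : l = l' := by
  rcases ned_ends he with h | h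
  · exact Str.nl_unique (hB.g2 e.2 (hA.sub (Finset.mem_coe.2 h.2.2.1)) h.2.2.2 l.1) hl rfl h2 hl' hj
      h2'
  · exact Str.nl_unique (hB.g2 e.1 (hA.sub (Finset.mem_coe.2 h.2.2.1)) h.2.2.2 l.1) hl rfl h1 hl' hj
      h1'

/-- the bad edges of level `j` -/
noncomputable def bad (G : Str V) (A B : Finset V) (j : ℕ) : Finset (V × V) :=
  (G.ned A B).filter fun e => ∃ l1 l2 : ℕ × List V, l1 ∈ lin A ∧ l1 ∉ lin B ∧ l1.1 = j ∧
    G.On e.1 l1 ∧ G.On e.2 l1 ∧ l2 ∈ lin B ∧ l2 ∉ lin A ∧ l2.1 = j ∧ G.On e.1 l2 ∧ G.On e.2 l2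

theorem bad_card (hC : G.C1 Z) (hA : G.PC A Z) (hB : G.PC B Z) (j : ℕ) :
    (bad G A B j).card ≤ 2 * (N j * (K j * g j * (nicj G A B j).card)) := by
  set n := (nicj G A B j).card with hn
  -- the points of `B ∖ A` on a line of level `j` of `A` not in `B`
  set P : Finset V := (B \ A).filter fun p => ∃ l ∈ lin A, l ∉ lin B ∧ l.1 = j ∧ G.On p l with hP
  set Q : Finset V := (A \ B).filter fun p => ∃ l ∈ lin B, l ∉ lin A ∧ l.1 = j ∧ G.On p l with hQ
  set L : Finset (ℕ × List V) := (lin A).filter fun l => l ∉ lin B ∧ l.1 = j ∧ ∃ p ∈ B \ A, G.On p l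
    with hL
  set S : Finset V := L.biUnion fun l => l.2.toFinset with hS
  have hPn : P.card ≤ n := by
    have h1 : ∀ p ∈ P, ∃ l : ℕ × List V, (p, l) ∈ nicj G A B j := by
      intro p hp
      rw [hP, Finset.mem_filter, Finset.mem_sdiff] at hp
      obtain ⟨⟨hpB, hpA⟩, l, hl, hlB, hj, ho⟩ := hp
      refine ⟨l, Finset.mem_filter.2 ⟨nic_mk (Finset.mem_union_right _ hpB)
        (lin_mono Finset.subset_union_left hl) ho (Or.inl hpA) (Or.inr hlB), hj⟩⟩
    choose! c hc using h1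
    refine Finset.card_le_card_of_injOn (fun p => (p, c p)) (fun p hp => hc p hp) ?_
    intro p _ p' _ h
    exact (Prod.ext_iff.1 h).1
  have hQn : Q.card ≤ n := by
    have h1 : ∀ p ∈ Q, ∃ l : ℕ × List V, (p, l) ∈ nicj G A B j := by
      intro p hp
      rw [hQ, Finset.mem_filter, Finset.mem_sdiff] at hp
      obtain ⟨⟨hpB, hpA⟩, l, hl, hlB, hj, ho⟩ := hp
      refine ⟨l, Finset.mem_filter.2 ⟨nic_mk (Finset.mem_union_left _ hpB)
        (lin_mono Finset.subset_union_right hl) ho (Or.inr hlB) (Or.inl hpA), hj⟩⟩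
    choose! c hc using h1
    refine Finset.card_le_card_of_injOn (fun p => (p, c p)) (fun p hp => hc p hp) ?_
    intro p _ p' _ h
    exact (Prod.ext_iff.1 h).1
  have hLn : L.card ≤ n := by
    have h1 : ∀ l ∈ L, ∃ p : V, (p, l) ∈ nicj G A B j := by
      intro l hl
      rw [hL, Finset.mem_filter] at hl
      obtain ⟨hl, hlB, hj, p, hp, ho⟩ := hl
      rw [Finset.mem_sdiff] at hp
      refine ⟨p, Finset.mem_filter.2 ⟨nic_mk (Finset.mem_union_right _ hp.1)
        (lin_mono Finset.subset_union_left hl) ho (Or.inl hp.2) (Or.inr hlB), hj⟩⟩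
    have h2 : L ⊆ (nicj G A B j).image Prod.snd := by
      intro l hl
      obtain ⟨p, hp⟩ := h1 l hl
      exact Finset.mem_image.2 ⟨(p, l), hp, rfl⟩
    exact (Finset.card_le_card h2).trans Finset.card_image_le
  have hSn : S.card ≤ g j * n := by
    have h1 : S.card ≤ L.card * g j := by
      refine Finset.card_biUnion_le_card_mul _ _ _ fun l hl => ?_
      rw [hL, Finset.mem_filter] at hl
      refine (List.toFinset_card_le _).trans ?_
      rw [(mem_lin.1 hl.1).1, hl.2.2.1]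
    calc S.card ≤ L.card * g j := h1
      _ ≤ n * g j := Nat.mul_le_mul_right _ hLn
      _ = g j * n := mul_comm _ _
  have hSZ : (↑S : Set V) ⊆ Z := by
    intro x hx
    rw [Finset.mem_coe, hS, Finset.mem_biUnion] at hx
    obtain ⟨l, hl, hx⟩ := hx
    rw [hL, Finset.mem_filter] at hl
    exact hA.sub (Finset.mem_coe.2 ((mem_lin.1 hl.1).2.2 x (List.mem_toFinset.1 hx)))
  have hQZ : (↑Q : Set V) ⊆ Z := by
    intro x hx
    rw [Finset.mem_coe, hQ, Finset.mem_filter, Finset.mem_sdiff] at hx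
    exact hA.sub (Finset.mem_coe.2 hx.1.1)
  -- the incidences
  set I : Finset (V × (ℕ × List V)) := (Q ×ˢ L).filter fun x => G.On x.1 x.2 with hI
  have hIn : I.card ≤ K j * g j * n := by
    have h1 : I.card ≤ ∑ p ∈ Q, G.nl j p S := by
      have h2 : I.card = ∑ p ∈ Q, (L.filter fun l => G.On p l).card := by
        rw [hI, Finset.card_filter, Finset.sum_product]
        exact Finset.sum_congr rfl fun p _ => (Finset.card_filter _ _).symm
      rw [h2]
      refine Finset.sum_le_sum fun p _ => ?_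
      unfold Str.nl
      refine Finset.card_le_card fun l hl => ?_
      rw [Finset.mem_filter] at hl ⊢
      obtain ⟨hl, ho⟩ := hl
      have hl' := hl
      rw [hL, Finset.mem_filter] at hl'
      refine ⟨mem_lin.2 ⟨(mem_lin.1 hl'.1).1, (mem_lin.1 hl'.1).2.1, fun x hx => ?_⟩, hl'.2.2.1, ho⟩
      rw [hS, Finset.mem_biUnion]
      exact ⟨l, hl, List.mem_toFinset.2 hx⟩
    have h3 := hC j S Q hSZ hQZ
    rw [Finset.sum_sub_distrib, ← Finset.mul_sum, Finset.sum_const, nsmul_eq_mul] at h3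
    have h4 : ((∑ p ∈ Q, G.nl j p S : ℕ) : ℤ) = ∑ p ∈ Q, (G.nl j p S : ℤ) := by push_cast; rfl
    rw [← h4] at h3
    have h5 : 2 * ((∑ p ∈ Q, G.nl j p S : ℕ) : ℤ) ≤ K j * S.card + Q.card * 3 := by linarith
    have h6 : 2 * (∑ p ∈ Q, G.nl j p S) ≤ K j * S.card + Q.card * 3 := by exact_mod_cast h5
    have hK : 4 ≤ K j := by
      have e1 := K_mul j
      have e2 := q_le_one j
      have e3 := q_pos j
      have : (4 : ℝ) ≤ K j := by
        by_contra hlt
        push Not at hlt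
        have : (K j : ℝ) * q j < 4 * 1 := by
          have e4 : (0 : ℝ) ≤ K j := Nat.cast_nonneg _
          nlinarith
        linarith
      exact_mod_cast this
    have hg := g_ge j
    have h7 : K j * S.card ≤ K j * g j * n := by
      rw [mul_assoc]; exact Nat.mul_le_mul_left _ hSn
    have h8 : Q.card * 3 ≤ K j * g j * n := by
      have : 3 ≤ K j * g j := by nlinarith
      calc Q.card * 3 ≤ n * 3 := Nat.mul_le_mul_right _ hQn
        _ ≤ n * (K j * g j) := Nat.mul_le_mul_left _ this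
        _ = K j * g j * n := by ring
    omega
  -- the bad edges
  have hsub : bad G A B j ⊆ (I.biUnion fun x => (G.pts x.2 B).image fun p => (p, x.1)) ∪
      (I.biUnion fun x => (G.pts x.2 B).image fun p => (x.1, p)) := by
    intro e he
    rw [bad, Finset.mem_filter] at he
    obtain ⟨he, l1, l2, h1, h2, h3, h4, h5, h6, h7, h8, h9, h10⟩ := he
    rw [Finset.mem_union, Finset.mem_biUnion, Finset.mem_biUnion]
    rcases ned_ends he with h | h
    · left
      refine ⟨(e.2, l1), ?_, ?_⟩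
      · rw [hI, Finset.mem_filter, Finset.mem_product, hQ, Finset.mem_filter, hL, Finset.mem_filter,
          Finset.mem_sdiff]
        exact ⟨⟨⟨⟨h.2.2.1, h.2.2.2⟩, l2, h6, h7, h8, h10⟩, h1, h2, h3, e.1,
          Finset.mem_sdiff.2 ⟨h.1, h.2.1⟩, h4⟩, h5⟩
      · rw [Finset.mem_image]
        exact ⟨e.1, Str.mem_pts.2 ⟨h.1, h4⟩, rfl⟩
    · right
      refine ⟨(e.1, l1), ?_, ?_⟩
      · rw [hI, Finset.mem_filter, Finset.mem_product, hQ, Finset.mem_filter, hL, Finset.mem_filter,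
          Finset.mem_sdiff]
        exact ⟨⟨⟨⟨h.2.2.1, h.2.2.2⟩, l2, h6, h7, h8, h9⟩, h1, h2, h3, e.2,
          Finset.mem_sdiff.2 ⟨h.1, h.2.1⟩, h5⟩, h4⟩
      · rw [Finset.mem_image]
        exact ⟨e.2, Str.mem_pts.2 ⟨h.1, h5⟩, rfl⟩
  have hone : ∀ x ∈ I, (G.pts x.2 B).card ≤ N j := by
    intro x hx
    have hx1 := (Finset.mem_product.1 (Finset.mem_filter.1 hx).1).2
    rw [hL, Finset.mem_filter] at hx1
    have := pts_lt_of hB hx1.1 hA.sub hx1.2.1
    rw [hx1.2.2.1] at this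
    exact this.le
  have hb1 : (I.biUnion fun x => (G.pts x.2 B).image fun p => (p, x.1)).card ≤ I.card * N j :=
    Finset.card_biUnion_le_card_mul _ _ _ fun x hx => Finset.card_image_le.trans (hone x hx)
  have hb2 : (I.biUnion fun x => (G.pts x.2 B).image fun p => (x.1, p)).card ≤ I.card * N j :=
    Finset.card_biUnion_le_card_mul _ _ _ fun x hx => Finset.card_image_le.trans (hone x hx)
  calc (bad G A B j).card ≤ _ := Finset.card_le_card hsub
    _ ≤ _ := Finset.card_union_le _ _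
    _ ≤ I.card * N j + I.card * N j := Nat.add_le_add hb1 hb2
    _ = 2 * (N j * I.card) := by ring
    _ ≤ 2 * (N j * (K j * g j * n)) :=
      Nat.mul_le_mul_left _ (Nat.mul_le_mul_left _ hIn)

/-- the lines of level `j` of `A` or `B` through both ends of `e` -/
noncomputable def cj (G : Str V) (A B : Finset V) (j : ℕ) (e : V × V) : Finset (ℕ × List V) :=
  (lin A ∪ lin B).filter fun l => l.1 = j ∧ G.On e.1 l ∧ G.On e.2 l

theorem cj_card (hA : G.PC A Z) (hB : G.PC B Z) (j : ℕ) {e : V × V} (he : e ∈ G.ned A B) :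
    (cj G A B j e).card ≤ (if j ∈ G.lv A B e then 1 else 0) + (if e ∈ bad G A B j then 1 else 0) := by
  by_cases h0 : (cj G A B j e).card = 0
  · rw [h0]; exact Nat.zero_le _
  · have h1 : j ∈ G.lv A B e := by
      obtain ⟨l, hl⟩ := Finset.card_pos.1 (Nat.pos_of_ne_zero h0)
      rw [cj, Finset.mem_filter] at hl
      unfold Str.lv
      rw [Finset.mem_image]
      exact ⟨l, Finset.mem_filter.2 ⟨hl.1, hl.2.2⟩, hl.2.1⟩
    rw [if_pos h1]
    by_cases h2 : (cj G A B j e).card ≤ 1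
    · omega
    · push Not at h2
      obtain ⟨l, l', hl, hl', hne⟩ := Finset.one_lt_card_iff.1 h2
      rw [cj, Finset.mem_filter, Finset.mem_union] at hl hl'
      obtain ⟨hl, hj, h3, h4⟩ := hl
      obtain ⟨hl', hj', h3', h4'⟩ := hl'
      have hbad : e ∈ bad G A B j := by
        rw [bad, Finset.mem_filter]
        refine ⟨he, ?_⟩
        have hnA : ¬ (l ∈ lin A ∧ l' ∈ lin A) := fun h =>
          hne (uniqueA hA hB he h.1 h.2 (by rw [hj, hj']) h3 h4 h3' h4')
        have hnB : ¬ (l ∈ lin B ∧ l' ∈ lin B) := fun h =>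
          hne (uniqueB hA hB he h.1 h.2 (by rw [hj, hj']) h3 h4 h3' h4')
        by_cases hlA : l ∈ lin A
        · have e1 : l' ∉ lin A := fun h => hnA ⟨hlA, h⟩
          have e2 : l' ∈ lin B := hl'.resolve_left e1
          have e3 : l ∉ lin B := fun h => hnB ⟨h, e2⟩
          exact ⟨l, l', hlA, e3, hj, h3, h4, e2, e1, hj', h3', h4'⟩
        · have e1 : l ∈ lin B := hl.resolve_left hlA
          have e2 : l' ∉ lin B := fun h => hnB ⟨e1, h⟩
          have e3 : l' ∈ lin A := hl'.resolve_right e2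
          exact ⟨l', l, e3, e2, hj', h3', h4', e1, hlA, hj, h3, h4⟩
      rw [if_pos hbad]
      -- at most two
      have h5 : cj G A B j e ⊆ ((lin A).filter fun l => l.1 = j ∧ G.On e.1 l ∧ G.On e.2 l) ∪
          ((lin B).filter fun l => l.1 = j ∧ G.On e.1 l ∧ G.On e.2 l) := by
        rw [cj, Finset.filter_union]
      have h6 : ((lin A).filter fun l => l.1 = j ∧ G.On e.1 l ∧ G.On e.2 l).card ≤ 1 := by
        rw [Finset.card_le_one]
        intro x hx y hy
        rw [Finset.mem_filter] at hx hy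
        exact uniqueA hA hB he hx.1 hy.1 (by rw [hx.2.1, hy.2.1]) hx.2.2.1 hx.2.2.2 hy.2.2.1
          hy.2.2.2
      have h7 : ((lin B).filter fun l => l.1 = j ∧ G.On e.1 l ∧ G.On e.2 l).card ≤ 1 := by
        rw [Finset.card_le_one]
        intro x hx y hy
        rw [Finset.mem_filter] at hx hy
        exact uniqueB hA hB he hx.1 hy.1 (by rw [hx.2.1, hy.2.1]) hx.2.2.1 hx.2.2.2 hy.2.2.1
          hy.2.2.2
      have h8 := (Finset.card_le_card h5).trans (Finset.card_union_le _ _)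
      omega

/-- the partners of an incidence -/
noncomputable def Tn (G : Str V) (A B : Finset V) (𝒦 : Finset (V × V)) (x : V × (ℕ × List V)) :
    Finset V :=
  ((if x.2 ∉ lin A then G.pts x.2 A else ∅) ∪ (if x.2 ∉ lin B then G.pts x.2 B else ∅)) ∪
    (𝒦.filter fun e => e.1 = x.1 ∧ G.On e.2 x.2).image Prod.snd

theorem Tn_card (hA : G.PC A Z) (hB : G.PC B Z) {𝒦 : Finset (V × V)}
    (h𝒦 : ∀ p l, (p, l) ∈ G.nic A B → (𝒦.filter fun e => e.1 = p ∧ G.On e.2 l).card ≤ N l.1)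
    {x : V × (ℕ × List V)} (hx : x ∈ G.nic A B) : (Tn G A B 𝒦 x).card ≤ 3 * N x.2.1 := by
  have hl : x.2 ∈ lin (A ∪ B) := (Str.mem_ic.1 (mem_nic.1 hx).1).2.1
  have hAB := union_sub hA hB
  have h1 : (if x.2 ∉ lin A then G.pts x.2 A else ∅ : Finset V).card ≤ N x.2.1 := by
    by_cases h : x.2 ∉ lin A
    · rw [if_pos h]; exact (pts_lt_of hA hl hAB h).le
    · rw [if_neg h, Finset.card_empty]; exact Nat.zero_le _
  have h2 : (if x.2 ∉ lin B then G.pts x.2 B else ∅ : Finset V).card ≤ N x.2.1 := by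
    by_cases h : x.2 ∉ lin B
    · rw [if_pos h]; exact (pts_lt_of hB hl hAB h).le
    · rw [if_neg h, Finset.card_empty]; exact Nat.zero_le _
  have h3 : ((𝒦.filter fun e => e.1 = x.1 ∧ G.On e.2 x.2).image Prod.snd).card ≤ N x.2.1 :=
    Finset.card_image_le.trans (h𝒦 x.1 x.2 hx)
  have h4 := Finset.card_union_le
    ((if x.2 ∉ lin A then G.pts x.2 A else ∅ : Finset V) ∪
      (if x.2 ∉ lin B then G.pts x.2 B else ∅ : Finset V))
    ((𝒦.filter fun e => e.1 = x.1 ∧ G.On e.2 x.2).image Prod.snd)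
  have h5 := Finset.card_union_le
    (if x.2 ∉ lin A then G.pts x.2 A else ∅ : Finset V)
      (if x.2 ∉ lin B then G.pts x.2 B else ∅ : Finset V)
  unfold Tn
  omega

/-- the count at one level -/
theorem level_card (hC : G.C1 Z) (hA : G.PC A Z) (hB : G.PC B Z) {𝒦 : Finset (V × V)}
    (hsub : 𝒦 ⊆ G.ned A B) (hsym : ∀ e ∈ 𝒦, e.swap ∈ 𝒦)
    (h𝒦 : ∀ p l, (p, l) ∈ G.nic A B → (𝒦.filter fun e => e.1 = p ∧ G.On e.2 l).card ≤ N l.1)
    (j : ℕ) :
    ((G.nfl A B).filter fun x => x.2.1 = j).card ≤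
      ((𝒦 ×ˢ lin (A ∩ B)).filter fun x => (G.On x.1.1 x.2 ∧ G.On x.1.2 x.2) ∧ x.2.1 = j).card +
      ((G.ned A B \ 𝒦).filter fun e => j ∈ G.lv A B e).card +
      (6 * N j + 2 * (N j * (K j * g j))) * (nicj G A B j).card := by
  set F1 := (𝒦 ×ˢ lin (A ∩ B)).filter fun x => (G.On x.1.1 x.2 ∧ G.On x.1.2 x.2) ∧ x.2.1 = j with hF1
  set F3 : Finset ((V × V) × (ℕ × List V)) :=
    (G.ned A B \ 𝒦).biUnion fun e => (cj G A B j e).image fun l => (e, l) with hF3
  set F4 : Finset ((V × V) × (ℕ × List V)) :=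
    (nicj G A B j).biUnion fun x => (Tn G A B 𝒦 x).image fun p => ((x.1, p), x.2) with hF4
  set F5 : Finset ((V × V) × (ℕ × List V)) :=
    (nicj G A B j).biUnion fun x => (Tn G A B 𝒦 x).image fun p => ((p, x.1), x.2) with hF5
  have hcov : ((G.nfl A B).filter fun x => x.2.1 = j) ⊆ ((F1 ∪ F3) ∪ F4) ∪ F5 := by
    rintro ⟨e, l⟩ hx
    rw [Finset.mem_filter, mem_nfl, Str.mem_fl, Str.mem_fl, Str.mem_fl] at hx
    obtain ⟨⟨⟨hed, hl, ho1, ho2⟩, hnA, hnB⟩, hj⟩ := hx
    simp only at hed hl ho1 ho2 hnA hnB hj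
    have hed' := Str.mem_ed.1 hed
    rw [Finset.mem_union, Finset.mem_union, Finset.mem_union]
    -- a criterion for F3
    have crit3 : e ∈ G.ned A B → e ∉ 𝒦 → (l ∈ lin A ∨ l ∈ lin B) → (e, l) ∈ F3 := by
      intro h1 h2 h3
      rw [hF3, Finset.mem_biUnion]
      refine ⟨e, Finset.mem_sdiff.2 ⟨h1, h2⟩, Finset.mem_image.2 ⟨l, ?_, rfl⟩⟩
      rw [cj, Finset.mem_filter, Finset.mem_union]
      exact ⟨h3, hj, ho1, ho2⟩
    -- criteria for F4, F5
    have crit4 : (e.1, l) ∈ G.nic A B → ((l ∉ lin A ∧ e.2 ∈ A) ∨ (l ∉ lin B ∧ e.2 ∈ B) ∨ e ∈ 𝒦) →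
        (e, l) ∈ F4 := by
      intro h1 h2
      rw [hF4, Finset.mem_biUnion]
      refine ⟨(e.1, l), Finset.mem_filter.2 ⟨h1, hj⟩, Finset.mem_image.2 ⟨e.2, ?_, rfl⟩⟩
      unfold Tn
      rw [Finset.mem_union, Finset.mem_union]
      rcases h2 with h2 | h2 | h2
      · left; left
        rw [if_pos h2.1]
        exact Str.mem_pts.2 ⟨h2.2, ho2⟩
      · left; right
        rw [if_pos h2.1]
        exact Str.mem_pts.2 ⟨h2.2, ho2⟩
      · right
        exact Finset.mem_image.2 ⟨e, Finset.mem_filter.2 ⟨h2, rfl, ho2⟩, rfl⟩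
    have crit5 : (e.2, l) ∈ G.nic A B → ((l ∉ lin A ∧ e.1 ∈ A) ∨ (l ∉ lin B ∧ e.1 ∈ B) ∨ e ∈ 𝒦) →
        (e, l) ∈ F5 := by
      intro h1 h2
      rw [hF5, Finset.mem_biUnion]
      refine ⟨(e.2, l), Finset.mem_filter.2 ⟨h1, hj⟩, Finset.mem_image.2 ⟨e.1, ?_, rfl⟩⟩
      unfold Tn
      rw [Finset.mem_union, Finset.mem_union]
      rcases h2 with h2 | h2 | h2
      · left; left
        rw [if_pos h2.1]
        exact Str.mem_pts.2 ⟨h2.2, ho1⟩
      · left; right
        rw [if_pos h2.1]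
        exact Str.mem_pts.2 ⟨h2.2, ho1⟩
      · right
        exact Finset.mem_image.2 ⟨e.swap, Finset.mem_filter.2 ⟨hsym e h2, rfl, ho1⟩, rfl⟩
    by_cases hlA : l ∈ lin A
    · by_cases hlB : l ∈ lin B
      · -- l in both
        have hned : e ∈ G.ned A B := by
          rw [mem_ned]
          refine ⟨hed, fun h => hnA ⟨h, hlA, ho1, ho2⟩, fun h => hnB ⟨h, hlB, ho1, ho2⟩⟩
        by_cases hk : e ∈ 𝒦
        · left; left; left
          rw [hF1, Finset.mem_filter, Finset.mem_product, lin_inter, Finset.mem_inter]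
          exact ⟨⟨hk, hlA, hlB⟩, ⟨ho1, ho2⟩, hj⟩
        · left; left; right
          exact crit3 hned hk (Or.inl hlA)
      · -- l in A only
        by_cases h1 : e.1 ∈ A
        · by_cases h2 : e.2 ∈ A
          · exact absurd ⟨Str.mem_ed.2 ⟨h1, h2, hed'.2.2⟩, hlA, ho1, ho2⟩ hnA
          · -- p = e.2
            have hp : (e.2, l) ∈ G.nic A B := nic_mk hed'.2.1 hl ho2 (Or.inl h2) (Or.inr hlB)
            by_cases h3 : e.1 ∈ B
            · right; exact crit5 hp (Or.inr (Or.inl ⟨hlB, h3⟩))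
            · by_cases hk : e ∈ 𝒦
              · right; exact crit5 hp (Or.inr (Or.inr hk))
              · left; left; right
                refine crit3 ?_ hk (Or.inl hlA)
                rw [mem_ned, Str.mem_ed, Str.mem_ed, Str.mem_ed]
                exact ⟨hed', fun h => h2 h.2.1, fun h => h3 h.1⟩
        · have hp : (e.1, l) ∈ G.nic A B := nic_mk hed'.1 hl ho1 (Or.inl h1) (Or.inr hlB)
          by_cases h3 : e.2 ∈ B
          · left; right; exact crit4 hp (Or.inr (Or.inl ⟨hlB, h3⟩))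
          · by_cases hk : e ∈ 𝒦
            · left; right; exact crit4 hp (Or.inr (Or.inr hk))
            · left; left; right
              refine crit3 ?_ hk (Or.inl hlA)
              rw [mem_ned, Str.mem_ed, Str.mem_ed, Str.mem_ed]
              exact ⟨hed', fun h => h1 h.1, fun h => h3 h.2.1⟩
    · by_cases hlB : l ∈ lin B
      · -- l in B only
        by_cases h1 : e.1 ∈ B
        · by_cases h2 : e.2 ∈ B
          · exact absurd ⟨Str.mem_ed.2 ⟨h1, h2, hed'.2.2⟩, hlB, ho1, ho2⟩ hnB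
          · have hp : (e.2, l) ∈ G.nic A B := nic_mk hed'.2.1 hl ho2 (Or.inr hlA) (Or.inl h2)
            by_cases h3 : e.1 ∈ A
            · right; exact crit5 hp (Or.inl ⟨hlA, h3⟩)
            · by_cases hk : e ∈ 𝒦
              · right; exact crit5 hp (Or.inr (Or.inr hk))
              · left; left; right
                refine crit3 ?_ hk (Or.inr hlB)
                rw [mem_ned, Str.mem_ed, Str.mem_ed, Str.mem_ed]
                exact ⟨hed', fun h => h3 h.1, fun h => h2 h.2.1⟩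
        · have hp : (e.1, l) ∈ G.nic A B := nic_mk hed'.1 hl ho1 (Or.inr hlA) (Or.inl h1)
          by_cases h3 : e.2 ∈ A
          · left; right; exact crit4 hp (Or.inl ⟨hlA, h3⟩)
          · by_cases hk : e ∈ 𝒦
            · left; right; exact crit4 hp (Or.inr (Or.inr hk))
            · left; left; right
              refine crit3 ?_ hk (Or.inr hlB)
              rw [mem_ned, Str.mem_ed, Str.mem_ed, Str.mem_ed]
              exact ⟨hed', fun h => h3 h.2.1, fun h => h1 h.1⟩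
      · -- l in none
        left; right
        have hp : (e.1, l) ∈ G.nic A B := nic_mk hed'.1 hl ho1 (Or.inr hlA) (Or.inr hlB)
        rcases Finset.mem_union.1 hed'.2.1 with h | h
        · exact crit4 hp (Or.inl ⟨hlA, h⟩)
        · exact crit4 hp (Or.inr (Or.inl ⟨hlB, h⟩))
  have hc3 : F3.card ≤ ((G.ned A B \ 𝒦).filter fun e => j ∈ G.lv A B e).card +
      (bad G A B j).card := by
    calc F3.card ≤ ∑ e ∈ G.ned A B \ 𝒦, ((cj G A B j e).image fun l => (e, l)).card :=
          Finset.card_biUnion_le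
      _ ≤ ∑ e ∈ G.ned A B \ 𝒦, ((if j ∈ G.lv A B e then 1 else 0) +
          (if e ∈ bad G A B j then 1 else 0)) :=
        Finset.sum_le_sum fun e he => Finset.card_image_le.trans
          (cj_card hA hB j (Finset.mem_sdiff.1 he).1)
      _ = ((G.ned A B \ 𝒦).filter fun e => j ∈ G.lv A B e).card +
          ((G.ned A B \ 𝒦).filter fun e => e ∈ bad G A B j).card := by
        rw [Finset.sum_add_distrib, ← Finset.card_filter, ← Finset.card_filter]
      _ ≤ _ := by
        refine Nat.add_le_add_left (Finset.card_le_card fun e he => ?_) _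
        exact (Finset.mem_filter.1 he).2
  have hT : ∀ x ∈ nicj G A B j, (Tn G A B 𝒦 x).card ≤ 3 * N j := by
    intro x hx
    rw [nicj, Finset.mem_filter] at hx
    have := Tn_card hA hB h𝒦 hx.1
    rwa [hx.2] at this
  have hc4 : F4.card ≤ (nicj G A B j).card * (3 * N j) :=
    Finset.card_biUnion_le_card_mul _ _ _ fun x hx => Finset.card_image_le.trans (hT x hx)
  have hc5 : F5.card ≤ (nicj G A B j).card * (3 * N j) :=
    Finset.card_biUnion_le_card_mul _ _ _ fun x hx => Finset.card_image_le.trans (hT x hx)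
  have hb := bad_card hC hA hB j
  have hu1 := Finset.card_union_le ((F1 ∪ F3) ∪ F4) F5
  have hu2 := Finset.card_union_le (F1 ∪ F3) F4
  have hu3 := Finset.card_union_le F1 F3
  have hu := Finset.card_le_card hcov
  have e1 : (6 * N j + 2 * (N j * (K j * g j))) * (nicj G A B j).card =
      (nicj G A B j).card * (3 * N j) + (nicj G A B j).card * (3 * N j) +
        2 * (N j * (K j * g j * (nicj G A B j).card)) := by ring
  rw [e1]
  omega

theorem charge_le (j : ℕ) :
    q (j + 1) * ((6 * N j + 2 * (N j * (K j * g j)) : ℕ) : ℝ) ≤ a j / 2 := by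
  have h1 := N_small j
  have h2 := KN_small j
  have h3 := a_ge j
  have h4 := q_pos j
  push_cast
  nlinarith

theorem SMK : S_CALC → S_SMK := by
  intro hcalc V _ G Z A B 𝒦 hC hA hB hsub hsym h𝒦
  have hincl := hcalc.incl G A B
  set M := (A ∪ B).card with hM
  have hlev : ∀ l ∈ lin (A ∪ B), l.1 < M := fun l hl => lin_level hl (g_lt _)
  -- the sum over new flags
  have hs1 : ∑ p ∈ G.nfl A B, q (p.2.1 + 1) = ∑ j ∈ Finset.range M,
      q (j + 1) * (((G.nfl A B).filter fun x => x.2.1 = j).card : ℝ) :=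
    sum_levels (G.nfl A B) (fun x => x.2.1) (fun j => q (j + 1)) M fun x hx =>
      hlev _ (Str.mem_fl.1 (mem_nfl.1 hx).1).2.1
  have hs2 : ∑ p ∈ G.nic A B, a p.2.1 = ∑ j ∈ Finset.range M,
      a j * ((nicj G A B j).card : ℝ) :=
    sum_levels (G.nic A B) (fun x => x.2.1) a M fun x hx =>
      hlev _ (Str.mem_ic.1 (mem_nic.1 hx).1).2.1
  have hs3 : ∑ e ∈ 𝒦, G.cm (A ∩ B) e = ∑ j ∈ Finset.range M, q (j + 1) *
      ((((𝒦 ×ˢ lin (A ∩ B)).filter fun x => (G.On x.1.1 x.2 ∧ G.On x.1.2 x.2) ∧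
        x.2.1 = j).card : ℕ) : ℝ) := by
    have e1 : ∑ e ∈ 𝒦, G.cm (A ∩ B) e =
        ∑ x ∈ (𝒦 ×ˢ lin (A ∩ B)).filter (fun x => G.On x.1.1 x.2 ∧ G.On x.1.2 x.2),
          q (x.2.1 + 1) := by
      rw [Finset.sum_filter, Finset.sum_product]
      refine Finset.sum_congr rfl fun e _ => ?_
      unfold Str.cm
      rw [Finset.sum_filter]
    rw [e1]
    refine (sum_levels ((𝒦 ×ˢ lin (A ∩ B)).filter (fun x => G.On x.1.1 x.2 ∧ G.On x.1.2 x.2))
      (fun x => x.2.1) (fun j => q (j + 1)) M ?_).trans ?_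
    · intro x hx
      rw [Finset.mem_filter, Finset.mem_product, lin_inter, Finset.mem_inter] at hx
      exact hlev _ (lin_mono Finset.subset_union_left hx.1.2.1)
    · refine Finset.sum_congr rfl fun j _ => ?_
      rw [Finset.filter_filter]
  have hs4 : ∑ e ∈ G.ned A B \ 𝒦, ∑ j ∈ G.lv A B e, q (j + 1) = ∑ j ∈ Finset.range M, q (j + 1) *
      ((((G.ned A B \ 𝒦).filter fun e => j ∈ G.lv A B e).card : ℕ) : ℝ) := by
    have e1 : ∀ e ∈ G.ned A B \ 𝒦, ∑ j ∈ G.lv A B e, q (j + 1) =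
        ∑ j ∈ Finset.range M, if j ∈ G.lv A B e then q (j + 1) else 0 := by
      intro e he
      rw [← Finset.sum_filter]
      refine Finset.sum_congr ?_ fun _ _ => rfl
      ext j
      rw [Finset.mem_filter, Finset.mem_range]
      constructor
      · intro h
        refine ⟨?_, h⟩
        unfold Str.lv at h
        rw [Finset.mem_image] at h
        obtain ⟨l, hl, rfl⟩ := h
        rw [Finset.mem_filter, Finset.mem_union] at hl
        rcases hl.1 with h1 | h1
        · exact hlev _ (lin_mono Finset.subset_union_left h1)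
        · exact hlev _ (lin_mono Finset.subset_union_right h1)
      · exact fun h => h.2
    rw [Finset.sum_congr rfl e1, Finset.sum_comm]
    refine Finset.sum_congr rfl fun j _ => ?_
    rw [← Finset.sum_filter, Finset.sum_const, nsmul_eq_mul, mul_comm]
  have key : ∑ p ∈ G.nfl A B, q (p.2.1 + 1) ≤ (∑ p ∈ G.nic A B, a p.2.1) / 2 +
      ∑ e ∈ 𝒦, G.cm (A ∩ B) e + ∑ e ∈ G.ned A B \ 𝒦, ∑ j ∈ G.lv A B e, q (j + 1) := by
    rw [hs1, hs2, hs3, hs4, Finset.sum_div, ← Finset.sum_add_distrib, ← Finset.sum_add_distrib]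
    refine Finset.sum_le_sum fun j _ => ?_
    have h1 := level_card hC hA hB hsub hsym h𝒦 j
    have h2 := charge_le j
    have h3 := q_pos (j + 1)
    have h4 : ((((G.nfl A B).filter fun x => x.2.1 = j).card : ℕ) : ℝ) ≤
      ((((𝒦 ×ˢ lin (A ∩ B)).filter fun x => (G.On x.1.1 x.2 ∧ G.On x.1.2 x.2) ∧
        x.2.1 = j).card : ℕ) : ℝ) +
      ((((G.ned A B \ 𝒦).filter fun e => j ∈ G.lv A B e).card : ℕ) : ℝ) +
      ((6 * N j + 2 * (N j * (K j * g j)) : ℕ) : ℝ) * ((nicj G A B j).card : ℝ) := by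
      exact_mod_cast h1
    have h5 : (0 : ℝ) ≤ (nicj G A B j).card := Nat.cast_nonneg _
    have h6 := mul_le_mul_of_nonneg_left h4 h3.le
    have h7 := mul_le_mul_of_nonneg_right h2 h5
    linarith
  have hned : ((G.ned A B).card : ℝ) = 𝒦.card + (G.ned A B \ 𝒦).card := by
    rw [← Finset.card_sdiff_add_card_eq_card hsub]
    push_cast
    ring
  rw [Finset.sum_sub_distrib, Finset.sum_sub_distrib, Finset.sum_const, Finset.sum_const,
    nsmul_eq_mul, nsmul_eq_mul]
  rw [hned] at hincl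
  linarith

end

end Run7.h921.LW
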